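import Pool.Agent.H83.X.T2

/-!
Theorem X, row DW3: squarefree numbers on a component
-/

set_option autoImplicit false

open MeasureTheory ProbabilityTheory Filter Topology Finset
open scoped Nat ENNReal

namespace Pool.Agent.H99.X

open Pool.Agent.H28.LF (lt ng SS ptS LX Xi LY Yi shX shY lX lY btY flY xiY SysX SysY CompY LwY ExY
  Wa DcO sg)
open Pool.Agent.H83.V (vl fz)
open Pool.Agent.H83.X

theorem dw3_flY_meas (d : ℕ) : MeasurableSet (flY d) := by
  have h : Measurable fun ω : Yi => (ω 0).2.1 d :=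
    (measurable_pi_apply d).comp
      (measurable_fst.comp (measurable_snd.comp (measurable_pi_apply (0 : ℤ))))
  exact h (measurableSet_singleton true)

theorem dw3_btY : Measurable btY := measurable_fst.comp (measurable_pi_apply (0 : ℤ))

/-- the part of the `n`-th power of the shift -/
theorem dw3_shm (n : ℕ) : Measurable (shY^[n] : Yi → Yi) := shY.measurable.iterate n

/-- not divisible by small squares -/
def gw (w : ℕ) (ω : Yi) : Prop := ∀ p : ℕ, p.Prime → p ≤ w → ω ∉ flY (p ^ 2)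

theorem gw_meas (w : ℕ) : MeasurableSet {ω | gw w ω} := by
  have h : {ω : Yi | gw w ω} = ⋂ p : ℕ, ⋂ (_ : p.Prime), ⋂ (_ : p ≤ w), (flY (p ^ 2))ᶜ := by
    ext ω
    simp only [Set.mem_ofPred_eq, Set.mem_iInter, Set.mem_compl_iff, gw]
  rw [h]
  exact MeasurableSet.iInter fun p => MeasurableSet.iInter fun _ => MeasurableSet.iInter fun _ =>
    (dw3_flY_meas _).compl

/-- the set of the row -/
def EE (w n : ℕ) : Set Yi := {ω | gw w ω ∧ gw w (shY^[n % Qw w] ω)}

theorem EE_meas (w n : ℕ) : MeasurableSet (EE w n) :=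
  (gw_meas w).inter ((dw3_shm _) (gw_meas w))

theorem Qw_pos (w : ℕ) : 0 < Qw w :=
  Finset.prod_pos fun _ hp => pow_pos (mem_filter.1 hp).2.pos 2

theorem Qw_dvd (w p : ℕ) (hp : p.Prime) (hpw : p ≤ w) : p ^ 2 ∣ Qw w :=
  Finset.dvd_prod_of_mem (fun p => p ^ 2) (mem_filter.2 ⟨mem_range.2 (by omega), hp⟩)

/-- residues of a generic point -/
theorem dw3_res (w : ℕ) (ω : Yi)
    (h : ∀ d : ℕ, 0 < d → (∀ j : ℕ, (shY^[j] ω ∈ flY d ↔ shY^[j + d] ω ∈ flY d)) ∧
      ∃! i : ℕ, i < d ∧ shY^[i] ω ∈ flY d) :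
    ∃ r : ℕ, ∀ k : ℕ, gw w (shY^[k] ω) ↔ gd w (r + k) := by
  classical
  have hmod : ∀ d : ℕ, 0 < d → ∀ q j : ℕ, (shY^[j] ω ∈ flY d ↔ shY^[j + d * q] ω ∈ flY d) := by
    intro d hd q
    induction q with
    | zero => intro j; simp
    | succ q ih =>
      intro j
      rw [ih j, (h d hd).1 (j + d * q), mul_add, mul_one, add_assoc]
  have hex : ∀ p : ℕ, ∃ i : ℕ, p.Prime → i < p ^ 2 ∧ shY^[i] ω ∈ flY (p ^ 2) := by
    intro p
    by_cases hp : p.Prime
    · obtain ⟨i, hi, _⟩ := (h (p ^ 2) (pow_pos hp.pos 2)).2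
      exact ⟨i, fun _ => hi⟩
    · exact ⟨0, fun hp' => absurd hp' hp⟩
  choose i hi using hex
  have hcop : Set.Pairwise (((range (w + 1)).filter Nat.Prime : Finset ℕ) : Set ℕ)
      (Function.onFun Nat.Coprime fun p => p ^ 2) := by
    intro p hp q hq hpq
    have hp' := (mem_filter.1 (Finset.mem_coe.1 hp)).2
    have hq' := (mem_filter.1 (Finset.mem_coe.1 hq)).2
    exact Nat.Coprime.pow 2 2 ((Nat.coprime_primes hp' hq').2 hpq)
  obtain ⟨r, hr⟩ := Nat.chineseRemainderOfFinset (fun p => p ^ 2 - i p) (fun p => p ^ 2)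
    ((range (w + 1)).filter Nat.Prime) (fun p hp => (pow_pos (mem_filter.1 hp).2.pos 2).ne') hcop
  refine ⟨r, fun k => ?_⟩
  have key : ∀ p : ℕ, p.Prime → p ≤ w → (shY^[k] ω ∈ flY (p ^ 2) ↔ p ^ 2 ∣ r + k) := by
    intro p hp hpw
    have hpos : 0 < p ^ 2 := pow_pos hp.pos 2
    obtain ⟨hi1, hi2⟩ := hi p hp
    have hr' : r ≡ p ^ 2 - i p [MOD p ^ 2] := hr p (mem_filter.2 ⟨mem_range.2 (by omega), hp⟩)
    have hri : r + i p ≡ 0 [MOD p ^ 2] := by
      have h1 : r + i p ≡ (p ^ 2 - i p) + i p [MOD p ^ 2] := hr'.add_right _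
      rw [Nat.sub_add_cancel hi1.le] at h1
      exact h1.trans (by simp [Nat.ModEq])
    have hk : shY^[k] ω ∈ flY (p ^ 2) ↔ k % p ^ 2 = i p := by
      have h1 : shY^[k] ω ∈ flY (p ^ 2) ↔ shY^[k % p ^ 2] ω ∈ flY (p ^ 2) := by
        rw [hmod (p ^ 2) hpos (k / p ^ 2) (k % p ^ 2), Nat.mod_add_div]
      rw [h1]
      constructor
      · intro h2
        exact (h (p ^ 2) hpos).2.unique ⟨Nat.mod_lt k hpos, h2⟩ ⟨hi1, hi2⟩
      · intro h2
        rw [h2]
        exact hi2
    rw [hk]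
    constructor
    · intro h2
      have h3 : k ≡ i p [MOD p ^ 2] := by
        unfold Nat.ModEq
        rw [h2, Nat.mod_eq_of_lt hi1]
      exact (Nat.modEq_zero_iff_dvd).1 ((h3.add_left r).trans hri)
    · intro h2
      have h3 : r + k ≡ r + i p [MOD p ^ 2] := ((Nat.modEq_zero_iff_dvd).2 h2).trans hri.symm
      have h4 : k ≡ i p [MOD p ^ 2] := Nat.ModEq.add_left_cancel' r h3
      unfold Nat.ModEq at h4
      rw [h4, Nat.mod_eq_of_lt hi1]
  unfold gw gd
  constructor
  · intro h1 p hp hpw h2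
    exact h1 p hp hpw ((key p hp hpw).2 h2)
  · intro h1 p hp hpw h2
    exact h1 p hp hpw ((key p hp hpw).1 h2)

theorem gd_per (w r m : ℕ) : gd w (r + Qw w * m) ↔ gd w r := by
  unfold gd
  refine forall_congr' fun p => forall_congr' fun hp => forall_congr' fun hpw => ?_
  rw [Nat.dvd_add_left ((Qw_dvd w p hp hpw).trans (Dvd.intro m rfl))]

theorem gd_mod (w r n : ℕ) : gd w (r + n % Qw w) ↔ gd w (r + n) := by
  have h := gd_per w (r + n % Qw w) (n / Qw w)
  rw [add_assoc, Nat.mod_add_div] at h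
  exact h.symm

open Classical in
/-- the number of good pairs in one period -/
theorem dw3_count (w r n : ℕ) :
    ((range (Qw w)).filter fun m => gd w (r + m) ∧ gd w (r + m + n)).card =
      ((range (Qw w)).filter fun m => gd w m ∧ gd w (m + n)).card := by
  have hper : Function.Periodic (fun m => gd w m ∧ gd w (m + n)) (Qw w) := by
    intro m
    have h1 := gd_per w m 1
    have h2 := gd_per w (m + n) 1
    rw [mul_one] at h1 h2
    show (gd w (m + Qw w) ∧ gd w (m + Qw w + n)) = (gd w m ∧ gd w (m + n))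
    rw [show m + Qw w + n = m + n + Qw w by ring, h1, h2]
  have e1 : ((Ico r (r + Qw w)).filter fun m => gd w m ∧ gd w (m + n)).card =
      Nat.count (fun m => gd w m ∧ gd w (m + n)) (Qw w) :=
    Nat.filter_Ico_card_eq_of_periodic r (Qw w) (fun m => gd w m ∧ gd w (m + n)) hper
  have e2 : Nat.count (fun m => gd w m ∧ gd w (m + n)) (Qw w) =
      ((range (Qw w)).filter fun m => gd w m ∧ gd w (m + n)).card := Nat.count_eq_card_filter_range _ _
  rw [← e2, ← e1]
  refine Finset.card_bij (fun m _ => r + m) ?_ ?_ ?_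
  · intro m hm
    rw [mem_filter, mem_range] at hm
    rw [mem_filter, mem_Ico]
    exact ⟨⟨by omega, by omega⟩, hm.2⟩
  · intro a _ b _ hab
    omega
  · intro b hb
    rw [mem_filter, mem_Ico] at hb
    refine ⟨b - r, ?_, by omega⟩
    rw [mem_filter, mem_range]
    refine ⟨by omega, ?_⟩
    rw [show r + (b - r) = b by omega]
    exact hb.2

open Classical in
theorem dw3_ind (w n : ℕ) (ω : Yi)
    (h : ∃ r : ℕ, ∀ k : ℕ, gw w (shY^[k] ω) ↔ gd w (r + k)) :
    ∑ m ∈ range (Qw w), ((shY^[m] : Yi → Yi) ⁻¹' EE w n).indicator (fun _ => (1 : ℝ)) ω =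
      (((range (Qw w)).filter fun r => gd w r ∧ gd w (r + n)).card : ℝ) := by
  obtain ⟨r, hr⟩ := h
  have h1 : ∀ m : ℕ, ((shY^[m] : Yi → Yi) ⁻¹' EE w n).indicator (fun _ => (1 : ℝ)) ω =
      if gd w (r + m) ∧ gd w (r + m + n) then (1 : ℝ) else 0 := by
    intro m
    have h2 : ω ∈ (shY^[m] : Yi → Yi) ⁻¹' EE w n ↔ gd w (r + m) ∧ gd w (r + m + n) := by
      show (gw w (shY^[m] ω) ∧ gw w (shY^[n % Qw w] (shY^[m] ω))) ↔ _
      rw [← Function.iterate_add_apply, hr, hr, show r + (n % Qw w + m) = r + m + n % Qw w by ring,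
        gd_mod]
    by_cases h3 : gd w (r + m) ∧ gd w (r + m + n)
    · rw [Set.indicator_of_mem (h2.2 h3), if_pos h3]
    · rw [Set.indicator_of_notMem (fun h4 => h3 (h2.1 h4)), if_neg h3]
  rw [Finset.sum_congr rfl fun m _ => h1 m, Finset.sum_boole, dw3_count]

/-- the sum of the squares after `w` -/
theorem dw3_sum_sq (w : ℕ) (hw : 0 < w) (N : ℕ) :
    ∑ k ∈ range N, 1 / (((w + 1 + k : ℕ) ^ 2 : ℕ) : ℝ) ≤ 1 / w - 1 / (w + N) := by
  have hwr : (0 : ℝ) < w := by exact_mod_cast hw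
  induction N with
  | zero => simp
  | succ N ih =>
    rw [Finset.sum_range_succ]
    have hN : (0 : ℝ) ≤ N := Nat.cast_nonneg N
    have h1 : 1 / (((w + 1 + N : ℕ) ^ 2 : ℕ) : ℝ) ≤ 1 / (w + N) - 1 / (w + (N + 1 : ℕ)) := by
      push_cast
      have h2 : (1 : ℝ) / (w + N) - 1 / (w + (N + 1)) = 1 / ((w + N) * (w + (N + 1))) := by
        field_simp
        ring
      rw [h2]
      apply one_div_le_one_div_of_le
      · positivity
      · nlinarith
    linarith

/-- divisible by a large square -/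
def BB (w : ℕ) : Set Yi := ⋃ k : ℕ, flY ((w + 1 + k) ^ 2)

theorem BB_meas (w : ℕ) : MeasurableSet (BB w) := MeasurableSet.iUnion fun _ => dw3_flY_meas _

theorem BB_le (hD : Pool.Agent.H28.LF.T_DVS) (ν : Measure Yi) (w : ℕ) (hw : 0 < w)
    (hν : CompY ν) : ν.real (BB w) ≤ 1 / w := by
  have := hν.prob
  have hwr : (0 : ℝ) < w := by exact_mod_cast hw
  have hfl : ∀ k : ℕ, ν (flY ((w + 1 + k) ^ 2)) = ENNReal.ofReal (1 / (((w + 1 + k : ℕ) ^ 2 : ℕ) : ℝ))
      := by
    intro k
    rw [← (hD ν hν).1 ((w + 1 + k) ^ 2) (by positivity)]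
    exact (ENNReal.ofReal_toReal (measure_ne_top ν _)).symm
  have hle : ν (BB w) ≤ ENNReal.ofReal (1 / w) := by
    refine (measure_iUnion_le _).trans ?_
    refine ENNReal.tsum_le_of_sum_range_le fun N => ?_
    rw [Finset.sum_congr rfl fun k _ => hfl k, ← ENNReal.ofReal_sum_of_nonneg]
    · refine ENNReal.ofReal_le_ofReal ((dw3_sum_sq w hw N).trans ?_)
      have : (0 : ℝ) ≤ 1 / (w + N) := by positivity
      linarith
    · intro k _
      positivity
  exact ENNReal.toReal_le_of_le_ofReal (by positivity) hle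

theorem dw3_vl (b : Bool × Bool) : ((vl false b : ℤ) : ℝ) = if b.2 = true then sg b.1 else 0 := by
  rcases b with ⟨b1, b2⟩
  cases b1 <;> cases b2 <;> simp [vl, sg]

theorem dw3_sg (b : Bool) : |sg b| ≤ 1 := by
  cases b <;> simp [sg]

open Classical in
/-- the pointwise comparison -/
theorem dw3_pt (w n : ℕ) (ω : Yi) (hQ : gw w (shY^[n % Qw w] ω) ↔ gw w (shY^[n] ω))
    (h1 : ω ∉ BB w → ((btY ω).2 = true ↔ gw w ω))
    (h2 : shY^[n] ω ∉ BB w → ((btY (shY^[n] ω)).2 = true ↔ gw w (shY^[n] ω))) :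
    |((vl false (btY ω) : ℤ) : ℝ) * ((vl false (btY (shY^[n] ω)) : ℤ) : ℝ) -
      (EE w n).indicator (fun ω => sg (btY ω).1 * sg (btY (shY^[n] ω)).1) ω| ≤
      (BB w).indicator (fun _ => (1 : ℝ)) ω +
        ((shY^[n] : Yi → Yi) ⁻¹' BB w).indicator (fun _ => (1 : ℝ)) ω := by
  have hmem : ω ∈ EE w n ↔ gw w ω ∧ gw w (shY^[n] ω) := by
    show (gw w ω ∧ gw w (shY^[n % Qw w] ω)) ↔ _
    rw [hQ]
  have hi1 : 0 ≤ (BB w).indicator (fun _ => (1 : ℝ)) ω := Set.indicator_nonneg (fun _ _ => zero_le_one) ω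
  have hi2 : 0 ≤ ((shY^[n] : Yi → Yi) ⁻¹' BB w).indicator (fun _ => (1 : ℝ)) ω :=
    Set.indicator_nonneg (fun _ _ => zero_le_one) ω
  have hss : |sg (btY ω).1 * sg (btY (shY^[n] ω)).1| ≤ 1 := by
    rw [abs_mul]
    exact mul_le_one₀ (dw3_sg _) (abs_nonneg _) (dw3_sg _)
  have hone : |((vl false (btY ω) : ℤ) : ℝ) * ((vl false (btY (shY^[n] ω)) : ℤ) : ℝ) -
      (EE w n).indicator (fun ω => sg (btY ω).1 * sg (btY (shY^[n] ω)).1) ω| ≤ 1 := by
    rw [dw3_vl, dw3_vl]
    by_cases h3 : ω ∈ EE w n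
    · rw [Set.indicator_of_mem h3]
      by_cases h4 : (btY ω).2 = true
      · rw [if_pos h4]
        by_cases h5 : (btY (shY^[n] ω)).2 = true
        · rw [if_pos h5, sub_self, abs_zero]
          exact zero_le_one
        · rw [if_neg h5, mul_zero, zero_sub, abs_neg]
          exact hss
      · rw [if_neg h4, zero_mul, zero_sub, abs_neg]
        exact hss
    · rw [Set.indicator_of_notMem h3, sub_zero]
      by_cases h4 : (btY ω).2 = true
      · rw [if_pos h4]
        by_cases h5 : (btY (shY^[n] ω)).2 = true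
        · rw [if_pos h5]
          exact hss
        · rw [if_neg h5, mul_zero, abs_zero]
          exact zero_le_one
      · rw [if_neg h4, zero_mul, abs_zero]
        exact zero_le_one
  by_cases hb1 : ω ∈ BB w
  · rw [Set.indicator_of_mem hb1]
    linarith
  · by_cases hb2 : ω ∈ (shY^[n] : Yi → Yi) ⁻¹' BB w
    · rw [Set.indicator_of_mem hb2]
      linarith
    · have h1' := h1 hb1
      have h2' := h2 hb2
      have h0 : ((vl false (btY ω) : ℤ) : ℝ) * ((vl false (btY (shY^[n] ω)) : ℤ) : ℝ) -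
          (EE w n).indicator (fun ω => sg (btY ω).1 * sg (btY (shY^[n] ω)).1) ω = 0 := by
        rw [dw3_vl, dw3_vl]
        by_cases h3 : gw w ω
        · by_cases h4 : gw w (shY^[n] ω)
          · rw [Set.indicator_of_mem (hmem.2 ⟨h3, h4⟩), if_pos (h1'.2 h3), if_pos (h2'.2 h4),
              sub_self]
          · rw [Set.indicator_of_notMem (fun h => h4 (hmem.1 h).2), if_neg (fun h => h4 (h2'.1 h)),
              mul_zero, sub_self]
        · rw [Set.indicator_of_notMem (fun h => h3 (hmem.1 h).1), if_neg (fun h => h3 (h1'.1 h)),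
            zero_mul, sub_self]
      rw [h0, abs_zero]
      linarith

open Classical in
theorem pf_DW3 (h : Pool.Agent.H28.LF.T_DVS) : T_DW3 := by
  intro ν w hw hν
  have := hν.prob
  have hmp : MeasurePreserving shY ν ν := hν.erg.toMeasurePreserving
  have hgen : ∀ᵐ ω ∂ν, ∀ d : ℕ, 0 < d →
      (∀ j : ℕ, (shY^[j] ω ∈ flY d ↔ shY^[j + d] ω ∈ flY d)) ∧
      ∃! i : ℕ, i < d ∧ shY^[i] ω ∈ flY d := by
    have h1 : ∀ᵐ ω ∂ν, ∀ k : ℕ, ∀ D : ℕ, 0 < D →
        (shY^[k] ω ∈ flY D ↔ shY^[D] (shY^[k] ω) ∈ flY D) ∧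
        ∃! i : ℕ, i < D ∧ shY^[i] (shY^[k] ω) ∈ flY D := by
      rw [ae_all_iff]
      intro k
      rw [ae_all_iff]
      intro D
      by_cases hD : 0 < D
      · filter_upwards [(hmp.iterate k).quasiMeasurePreserving.ae (hν.per D hD)] with ω hω _
        exact hω
      · exact Eventually.of_forall fun ω hD' => absurd hD' hD
    filter_upwards [h1] with ω hω d hd
    refine ⟨fun j => ?_, (hω 0 d hd).2⟩
    have h2 := (hω j d hd).1
    rw [← Function.iterate_add_apply, add_comm d j] at h2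
    exact h2
  have hres : ∀ᵐ ω ∂ν, ∃ r : ℕ, ∀ k : ℕ, gw w (shY^[k] ω) ↔ gd w (r + k) := by
    filter_upwards [hgen] with ω hω
    exact dw3_res w ω hω
  refine ⟨EE w, EE_meas w, ?_, ?_, ?_, ?_⟩
  · intro n
    show EE w (n + Qw w) = EE w n
    unfold EE
    rw [Nat.add_mod_right]
  · intro n
    filter_upwards [hres] with ω hω
    obtain ⟨r, hr⟩ := hω
    show (gw w (shY^[Qw w] ω) ∧ gw w (shY^[n % Qw w] (shY^[Qw w] ω))) ↔
      (gw w ω ∧ gw w (shY^[n % Qw w] ω))
    have h0 : gw w ω ↔ gd w r := by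
      have h00 := hr 0
      rw [Nat.add_zero] at h00
      exact h00
    have e1 := gd_per w r 1
    have e2 := gd_per w (r + n % Qw w) 1
    rw [mul_one] at e1 e2
    rw [← Function.iterate_add_apply, hr, hr, hr, e1, show r + (n % Qw w + Qw w) =
      r + n % Qw w + Qw w by ring, e2, ← h0]
  · intro n
    have hQ : (0 : ℝ) < Qw w := by exact_mod_cast Qw_pos w
    have hI : ∀ m : ℕ, ν.real ((shY^[m] : Yi → Yi) ⁻¹' EE w n) = ν.real (EE w n) := fun m =>
      (hmp.iterate m).measureReal_preimage (EE_meas w n).nullMeasurableSet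
    have hm : ∀ m : ℕ, MeasurableSet ((shY^[m] : Yi → Yi) ⁻¹' EE w n) := fun m =>
      (dw3_shm m) (EE_meas w n)
    have h1 : ∫ ω, ∑ m ∈ range (Qw w),
        ((shY^[m] : Yi → Yi) ⁻¹' EE w n).indicator (fun _ => (1 : ℝ)) ω ∂ν =
        (((range (Qw w)).filter fun r => gd w r ∧ gd w (r + n)).card : ℝ) := by
      have h2 : (fun ω => ∑ m ∈ range (Qw w),
          ((shY^[m] : Yi → Yi) ⁻¹' EE w n).indicator (fun _ => (1 : ℝ)) ω)
          =ᵐ[ν] fun _ => (((range (Qw w)).filter fun r => gd w r ∧ gd w (r + n)).card : ℝ) := by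
        filter_upwards [hres] with ω hω
        exact dw3_ind w n ω hω
      rw [integral_congr_ae h2]
      simp
    rw [integral_finsetSum] at h1
    · have h3 : ∀ m ∈ range (Qw w), ∫ ω, ((shY^[m] : Yi → Yi) ⁻¹' EE w n).indicator
          (fun _ => (1 : ℝ)) ω ∂ν = ν.real (EE w n) := by
        intro m _
        rw [integral_indicator_const _ (hm m), hI m]
        simp
      rw [Finset.sum_congr rfl h3, Finset.sum_const, card_range, nsmul_eq_mul] at h1
      unfold Dw
      rw [eq_div_iff hQ.ne', mul_comm]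
      exact h1
    · intro m _
      exact (integrable_const (1 : ℝ)).indicator (hm m)
  · intro n
    have hsq : ∀ᵐ ω ∂ν, ω ∉ BB w → ((btY ω).2 = true ↔ gw w ω) := by
      filter_upwards [hν.sqf] with ω h2 h3
      have h5 : ∀ p : ℕ, p.Prime → ω ∈ flY (p ^ 2) → p ≤ w := by
        intro p hp hpw
        by_contra h6
        refine h3 (Set.mem_iUnion.2 ⟨p - (w + 1), ?_⟩)
        rw [show w + 1 + (p - (w + 1)) = p by omega]
        exact hpw
      constructor
      · intro hb p hp _ hpf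
        have h7 := h2.2 ⟨p, hp, hpf⟩
        rw [hb] at h7
        exact Bool.noConfusion h7
      · intro hS
        by_contra hb
        have hb' : (btY ω).2 = false := by simpa using hb
        obtain ⟨p, hp, hpf⟩ := h2.1 hb'
        exact hS p hp (h5 p hp hpf) hpf
    have hsqn : ∀ᵐ ω ∂ν, shY^[n] ω ∉ BB w → ((btY (shY^[n] ω)).2 = true ↔ gw w (shY^[n] ω)) :=
      (hmp.iterate n).quasiMeasurePreserving.ae hsq
    have hvm : Measurable fun ω : Yi => ((vl false (btY ω) : ℤ) : ℝ) :=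
      (measurable_of_countable fun b : Bool × Bool => ((vl false b : ℤ) : ℝ)).comp dw3_btY
    have hsm : Measurable fun ω : Yi => sg (btY ω).1 :=
      (measurable_of_countable fun b : Bool × Bool => sg b.1).comp dw3_btY
    have hvb : ∀ b : Bool × Bool, |((vl false b : ℤ) : ℝ)| ≤ 1 := by
      intro b
      rw [dw3_vl]
      by_cases hb : b.2 = true
      · rw [if_pos hb]
        exact dw3_sg _
      · rw [if_neg hb, abs_zero]
        exact zero_le_one
    have hF : Integrable (fun ω => ((vl false (btY ω) : ℤ) : ℝ) *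
        ((vl false (btY (shY^[n] ω)) : ℤ) : ℝ)) ν := by
      refine Integrable.of_bound (hvm.mul (hvm.comp (dw3_shm n))).aestronglyMeasurable 1
        (Eventually.of_forall fun ω => ?_)
      rw [Real.norm_eq_abs, abs_mul]
      exact mul_le_one₀ (hvb _) (abs_nonneg _) (hvb _)
    have hG0 : Measurable (fun ω => sg (btY ω).1 * sg (btY (shY^[n] ω)).1) :=
      hsm.mul (hsm.comp (dw3_shm n))
    have hG : Integrable ((EE w n).indicator
        (fun ω => sg (btY ω).1 * sg (btY (shY^[n] ω)).1)) ν := by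
      refine Integrable.indicator ?_ (EE_meas w n)
      refine Integrable.of_bound hG0.aestronglyMeasurable 1 (Eventually.of_forall fun ω => ?_)
      rw [Real.norm_eq_abs, abs_mul]
      exact mul_le_one₀ (dw3_sg _) (abs_nonneg _) (dw3_sg _)
    have hB1 : Integrable ((BB w).indicator (fun _ => (1 : ℝ))) ν :=
      (integrable_const (1 : ℝ)).indicator (BB_meas w)
    have hB2 : Integrable (((shY^[n] : Yi → Yi) ⁻¹' BB w).indicator (fun _ => (1 : ℝ))) ν :=
      (integrable_const (1 : ℝ)).indicator ((dw3_shm n) (BB_meas w))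
    have hmain : |∫ ω, (((vl false (btY ω) : ℤ) : ℝ) * ((vl false (btY (shY^[n] ω)) : ℤ) : ℝ) -
        (EE w n).indicator (fun ω => sg (btY ω).1 * sg (btY (shY^[n] ω)).1) ω) ∂ν| ≤
        ∫ ω, ((BB w).indicator (fun _ => (1 : ℝ)) ω +
          ((shY^[n] : Yi → Yi) ⁻¹' BB w).indicator (fun _ => (1 : ℝ)) ω) ∂ν := by
      refine (abs_integral_le_integral_abs).trans ?_
      refine integral_mono_ae (hF.sub hG).abs (hB1.add hB2) ?_
      filter_upwards [hsq, hsqn, hres] with ω h1 h2 h3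
      refine dw3_pt w n ω ?_ h1 h2
      obtain ⟨r, hr⟩ := h3
      rw [hr, hr, gd_mod]
    rw [integral_sub hF hG, integral_indicator (EE_meas w n), integral_add hB1 hB2,
      integral_indicator_const _ (BB_meas w),
      integral_indicator_const _ ((dw3_shm n) (BB_meas w)),
      (hmp.iterate n).measureReal_preimage (BB_meas w).nullMeasurableSet] at hmain
    have hBB := BB_le h ν w hw hν
    have hwr : (0 : ℝ) < w := by exact_mod_cast hw
    have h9 : (0 : ℝ) ≤ 1 / w := by positivity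
    have h10 : (4 : ℝ) / w = 4 * (1 / w) := by ring
    rw [h10]
    refine hmain.trans ?_
    simp only [smul_eq_mul, mul_one]
    linarith

end Pool.Agent.H99.X
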