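import Pool.Agent.H83.X.T2

/-!
Theorem X, row KCP: the theorem for components
-/

set_option autoImplicit false

open MeasureTheory ProbabilityTheory Filter Topology Finset
open scoped Nat ENNReal

namespace Pool.Agent.H99.X

open Pool.Agent.H24.T2 (Pset)
open Pool.Agent.H67.AG (avgP ul Inv Rt Av)
open Pool.Agent.H28.LF (lt ng SS ptS LX Xi LY Yi shX shY lX lY btY flY xiY SysX SysY CompY LwY ExY
  Wa DcO sg)
open Pool.Agent.H83.V (vl fz)
open Pool.Agent.H83.X

/-- a convex function is Lipschitz on `[-1, 1]` -/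
theorem kcp_lip (Φ : ℝ → ℝ) (hΦ : ConvexOn ℝ Set.univ Φ) :
    ∃ L : ℝ, 0 < L ∧ ∀ x y : ℝ, |x| ≤ 1 → |y| ≤ 1 → |Φ x - Φ y| ≤ L * |x - y| := by
  have hc : Continuous Φ := hΦ.locallyLipschitz.continuous
  obtain ⟨M, hM⟩ := (isCompact_Icc (a := (-3 : ℝ)) (b := 3)).exists_bound_of_continuousOn
    hc.continuousOn
  have h1 : ConvexOn ℝ (Metric.ball (0 : ℝ) 3) Φ :=
    hΦ.subset (Set.subset_univ _) (convex_ball _ _)
  have h2 := h1.lipschitzOnWith_of_abs_le (ε := 1) one_pos (M := M) (by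
    intro a ha
    rw [dist_zero_right, Real.norm_eq_abs] at ha
    have h3 := abs_lt.1 ha
    exact hM a ⟨h3.1.le, h3.2.le⟩)
  refine ⟨((2 * M / 1).toNNReal : ℝ) + 1, by positivity, ?_⟩
  intro x y hx hy
  have hx' : x ∈ Metric.ball (0 : ℝ) (3 - 1) := by
    rw [Metric.mem_ball, dist_zero_right, Real.norm_eq_abs]
    linarith
  have hy' : y ∈ Metric.ball (0 : ℝ) (3 - 1) := by
    rw [Metric.mem_ball, dist_zero_right, Real.norm_eq_abs]
    linarith
  have h4 := h2.dist_le_mul x hx' y hy'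
  rw [Real.dist_eq, Real.dist_eq] at h4
  have h5 : 0 ≤ |x - y| := abs_nonneg _
  nlinarith

/-- the integral is Lipschitz in the density -/
theorem kcp_cU (Φ : ℝ → ℝ) (hΦ : ConvexOn ℝ Set.univ Φ) (L : ℝ)
    (hL : ∀ x y : ℝ, |x| ≤ 1 → |y| ≤ 1 → |Φ x - Φ y| ≤ L * |x - y|) (hL0 : 0 ≤ L) (a b : ℝ)
    (ha0 : 0 ≤ a) (ha1 : a ≤ 1) (hb0 : 0 ≤ b) (hb1 : b ≤ 1) : |cU Φ a - cU Φ b| ≤ L * |a - b| := by
  have hc : Continuous Φ := hΦ.locallyLipschitz.continuous
  have hia : IntervalIntegrable (fun t => Φ (a * t)) volume (-1 : ℝ) 1 :=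
    (hc.comp (continuous_const.mul continuous_id)).intervalIntegrable _ _
  have hib : IntervalIntegrable (fun t => Φ (b * t)) volume (-1 : ℝ) 1 :=
    (hc.comp (continuous_const.mul continuous_id)).intervalIntegrable _ _
  have h1 : cU Φ a - cU Φ b = (∫ t in (-1 : ℝ)..1, (Φ (a * t) - Φ (b * t))) / 2 := by
    unfold cU
    rw [intervalIntegral.integral_sub hia hib]
    ring
  have h2 : ‖∫ t in (-1 : ℝ)..1, (Φ (a * t) - Φ (b * t))‖ ≤ (L * |a - b|) * |(1 : ℝ) - (-1)| := by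
    refine intervalIntegral.norm_integral_le_of_norm_le_const fun t ht => ?_
    rw [Set.uIoc_of_le (by norm_num)] at ht
    have ht' : |t| ≤ 1 := abs_le.2 ⟨ht.1.le, ht.2⟩
    have hat : |a * t| ≤ 1 := by
      rw [abs_mul, abs_of_nonneg ha0]
      exact mul_le_one₀ ha1 (abs_nonneg _) ht'
    have hbt : |b * t| ≤ 1 := by
      rw [abs_mul, abs_of_nonneg hb0]
      exact mul_le_one₀ hb1 (abs_nonneg _) ht'
    rw [Real.norm_eq_abs]
    refine (hL _ _ hat hbt).trans ?_
    have h3 : |a * t - b * t| ≤ |a - b| := by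
      rw [← sub_mul, abs_mul]
      exact mul_le_of_le_one_right (abs_nonneg _) ht'
    exact mul_le_mul_of_nonneg_left h3 hL0
  rw [h1, abs_div, abs_of_pos (by norm_num : (0 : ℝ) < 2)]
  rw [Real.norm_eq_abs, show |(1 : ℝ) - (-1)| = 2 by norm_num] at h2
  rw [div_le_iff₀ (by norm_num)]
  exact h2

/-- the mean is monotone -/
theorem kcp_avg_mono (W m : ℕ) (F G : ℕ → ℝ) (h : ∀ p ∈ Pset W m, F p ≤ G p) :
    avgP W m F ≤ avgP W m G := by
  unfold avgP
  exact div_le_div_of_nonneg_right (Finset.sum_le_sum h) (Nat.cast_nonneg _)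

theorem kcp_avg_const (W m : ℕ) (c : ℝ) (hc : 0 ≤ c) : avgP W m (fun _ => c) ≤ c := by
  unfold avgP
  rw [Finset.sum_const, nsmul_eq_mul]
  by_cases h : ((Pset W m).card : ℝ) = 0
  · rw [h, zero_mul, zero_div]
    exact hc
  · rw [mul_comm, mul_div_assoc, div_self h, mul_one]

theorem kcp_avg_add (W m : ℕ) (F G : ℕ → ℝ) :
    avgP W m (fun p => F p + G p) = avgP W m F + avgP W m G := by
  unfold avgP
  rw [Finset.sum_add_distrib, add_div]

theorem kcp_avg_sum (W m Q : ℕ) (F : ℕ → ℕ → ℝ) :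
    avgP W m (fun p => ∑ u ∈ range Q, F u p) = ∑ u ∈ range Q, avgP W m (F u) := by
  unfold avgP
  rw [Finset.sum_comm, Finset.sum_div]

/-- the density lies between `0` and `1` -/
theorem kcp_dn (z : Bool) (h : ℕ) (δ : ℝ) (hδ : DnX z h δ) : 0 ≤ δ ∧ δ ≤ 1 := by
  classical
  constructor
  · refine ge_of_tendsto' hδ fun N => ?_
    positivity
  · refine le_of_tendsto' hδ fun N => ?_
    by_cases hN : N = 0
    · subst hN
      simp
    · have hN' : (0 : ℝ) < N := by exact_mod_cast Nat.pos_of_ne_zero hN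
      rw [div_le_one hN']
      have h1 : ((Icc 1 N).filter fun n => fz z n * fz z (n + h) ≠ 0).card ≤ (Icc 1 N).card :=
        Finset.card_filter_le _ _
      rw [Nat.card_Icc, Nat.add_sub_cancel] at h1
      exact_mod_cast h1

theorem kcp_Dw (w n : ℕ) : 0 ≤ Dw w n ∧ Dw w n ≤ 1 := by
  classical
  unfold Dw
  constructor
  · positivity
  · have hQ : (0 : ℝ) < Qw w := by
      have : 0 < Qw w := Finset.prod_pos fun p hp => pow_pos (mem_filter.1 hp).2.pos 2
      exact_mod_cast this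
    rw [div_le_one hQ]
    have h1 : ((range (Qw w)).filter fun r => gd w r ∧ gd w (r + n)).card ≤ (range (Qw w)).card :=
      Finset.card_filter_le _ _
    rw [card_range] at h1
    exact_mod_cast h1

theorem kcp_sg (b : Bool) : |sg b| ≤ 1 := by
  cases b <;> simp [sg]

theorem kcp_vb (z : Bool) (b : Bool × Bool) : |((vl z b : ℤ) : ℝ)| ≤ 1 := by
  rcases b with ⟨b1, b2⟩
  cases z <;> cases b1 <;> cases b2 <;> simp [vl]

theorem kcp_vt (b : Bool × Bool) : ((vl true b : ℤ) : ℝ) = sg b.1 := by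
  rcases b with ⟨b1, b2⟩
  cases b1 <;> cases b2 <;> simp [vl, sg]

theorem kcp_int_le (ν : Measure Yi) [IsProbabilityMeasure ν] (E : Set Yi) (f : Yi → ℝ)
    (hf : ∀ ω, |f ω| ≤ 1) : |∫ ω in E, f ω ∂ν| ≤ 1 := by
  have h1 : ‖∫ ω in E, f ω ∂ν‖ ≤ 1 * ν.real E := by
    refine norm_setIntegral_le_of_norm_le_const (measure_lt_top ν E) fun ω _ => ?_
    exact hf ω
  rw [Real.norm_eq_abs, one_mul] at h1
  exact h1.trans measureReal_le_one

theorem pf_KCP (h1 : T_KXX) (h2 : T_DW1) (h3 : T_DW2) (h4 : T_DW3) : T_KCP := by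
  classical
  intro z h Φ δ ν w η hh hΦ hδ hν hw hη
  have := hν.prob
  have hsm : Measurable fun ω : Yi => sg (btY ω).1 :=
    (measurable_of_countable fun b : Bool × Bool => sg b.1).comp
      (measurable_fst.comp (measurable_pi_apply (0 : ℤ)) : Measurable btY)
  cases z with
  | true =>
    have hδ1 : δ = 1 := h3.1 h δ hδ
    obtain ⟨m₀, hm₀⟩ := h1 Yi ν shY (fun ω => sg (btY ω).1) Set.univ 1 Φ w h 1 0 η hν.erg hsm
      (fun ω => kcp_sg _) hν.mr MeasurableSet.univ one_pos (by simp) hΦ hw hh one_pos hη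
    refine ⟨m₀, fun m hm => ?_⟩
    refine le_trans (le_of_eq ?_) (hm₀ m hm)
    congr 1
    funext p
    rw [if_pos (Nat.modEq_one), probReal_univ, hδ1]
    have e : gC true ν (p * h) = ∫ ω in Set.univ, sg (btY ω).1 * sg (btY (shY^[p * h] ω)).1 ∂ν := by
      unfold gC
      rw [setIntegral_univ]
      refine integral_congr_ae (Eventually.of_forall fun ω => ?_)
      show ((vl true (btY ω) : ℤ) : ℝ) * ((vl true (btY (shY^[p * h] ω)) : ℤ) : ℝ) = _
      rw [kcp_vt, kcp_vt]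
    rw [e]
  | false =>
    obtain ⟨L, hL0, hL⟩ := kcp_lip Φ hΦ
    obtain ⟨w0, hw0⟩ := exists_nat_gt (32 * L / η)
    set w1 : ℕ := w0 + 1 with hw1
    have hw1p : 0 < w1 := Nat.succ_pos _
    have hw1r : (0 : ℝ) < w1 := by exact_mod_cast hw1p
    have hsmall : L * (8 / w1) ≤ η / 4 := by
      have h5 : 32 * L / η < w1 := hw0.trans (by rw [hw1]; push_cast; linarith)
      rw [div_lt_iff₀ hη] at h5
      rw [← mul_div_assoc, div_le_iff₀ hw1r]
      linarith
    obtain ⟨E, hEm, hEp, hEi, hEν, hEg⟩ := h4 ν w1 hw1p hν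
    set Q : ℕ := Qw w1 with hQ
    have hQp : 0 < Q := Finset.prod_pos fun p hp => pow_pos (mem_filter.1 hp).2.pos 2
    have hQr : (0 : ℝ) < Q := by exact_mod_cast hQp
    obtain ⟨hδ0, hδ1⟩ := kcp_dn false h δ hδ
    have hEmod : ∀ k n : ℕ, E (n + Q * k) = E n := by
      intro k
      induction k with
      | zero => intro n; simp
      | succ k ih =>
        intro n
        rw [mul_add, mul_one, ← add_assoc, hEp, ih]
    have hEeq : ∀ a b : ℕ, a ≡ b [MOD Q] → E a = E b := by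
      intro a b hab
      have e1 : E a = E (a % Q) := by
        conv_lhs => rw [← Nat.mod_add_div a Q]
        exact hEmod _ _
      have e2 : E b = E (b % Q) := by
        conv_lhs => rw [← Nat.mod_add_div b Q]
        exact hEmod _ _
      rw [e1, e2]
      unfold Nat.ModEq at hab
      rw [hab]
    have hstep : ∀ u : ℕ, ∃ m₀ : ℕ, ∀ m, m₀ ≤ m →
        avgP 2 m (fun p => if p ≡ u [MOD Q] then
          w p * (Φ (∫ ω in E (u * h), sg (btY ω).1 * sg (btY (shY^[p * h] ω)).1 ∂ν) -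
            cU Φ (ν.real (E (u * h)))) else 0) ≤ η / (2 * Q) := fun u =>
      h1 Yi ν shY (fun ω => sg (btY ω).1) (E (u * h)) Q Φ w h Q u (η / (2 * Q)) hν.erg hsm
        (fun ω => kcp_sg _) hν.mr (hEm _) hQp (hEi _) hΦ hw hh hQp (by positivity)
    choose M hM using hstep
    refine ⟨(∑ u ∈ range Q, M u) + w1, fun m hm => ?_⟩
    have hMu : ∀ u ∈ range Q, M u ≤ m := by
      intro u hu
      have h5 : M u ≤ ∑ u ∈ range Q, M u := Finset.single_le_sum (f := M) (fun _ _ => Nat.zero_le _) hu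
      omega
    have hpt : ∀ p ∈ Pset 2 m, w p * (Φ (gC false ν (p * h)) - cU Φ δ) ≤
        (∑ u ∈ range Q, if p ≡ u [MOD Q] then
          w p * (Φ (∫ ω in E (u * h), sg (btY ω).1 * sg (btY (shY^[p * h] ω)).1 ∂ν) -
            cU Φ (ν.real (E (u * h)))) else 0) + L * (8 / w1) := by
      intro p hp
      have hp1 : 2 ^ m < p := (mem_Ioc.1 (mem_filter.1 hp).1).1
      have hpp : p.Prime := (mem_filter.1 hp).2.1
      have hwp : w1 < p := by
        have h5 : w1 ≤ m := by omega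
        have h6 : m < 2 ^ m := Nat.lt_two_pow_self
        omega
      have hsum : (∑ u ∈ range Q, if p ≡ u [MOD Q] then
          w p * (Φ (∫ ω in E (u * h), sg (btY ω).1 * sg (btY (shY^[p * h] ω)).1 ∂ν) -
            cU Φ (ν.real (E (u * h)))) else 0) =
          w p * (Φ (∫ ω in E (p * h), sg (btY ω).1 * sg (btY (shY^[p * h] ω)).1 ∂ν) -
            cU Φ (ν.real (E (p * h)))) := by
        rw [Finset.sum_eq_single (p % Q)]
        · rw [if_pos (Nat.mod_modEq p Q).symm]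
          rw [hEeq (p % Q * h) (p * h) ((Nat.mod_modEq p Q).mul_right h)]
        · intro u hu hup
          rw [if_neg]
          intro h5
          unfold Nat.ModEq at h5
          rw [Nat.mod_eq_of_lt (mem_range.1 hu)] at h5
          exact hup h5.symm
        · intro h5
          exact absurd (mem_range.2 (Nat.mod_lt p hQp)) h5
      rw [hsum]
      set I : ℝ := ∫ ω in E (p * h), sg (btY ω).1 * sg (btY (shY^[p * h] ω)).1 ∂ν with hI
      have hIb : |I| ≤ 1 := by
        refine kcp_int_le ν _ _ fun ω => ?_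
        rw [abs_mul]
        exact mul_le_one₀ (kcp_sg _) (abs_nonneg _) (kcp_sg _)
      have hgb : |gC false ν (p * h)| ≤ 1 := by
        unfold gC
        rw [← setIntegral_univ]
        refine kcp_int_le ν _ _ fun ω => ?_
        rw [abs_mul]
        exact mul_le_one₀ (kcp_vb _ _) (abs_nonneg _) (kcp_vb _ _)
      have hE1 : ν.real (E (p * h)) = Dw w1 h := by rw [hEν, h2 w1 h p hpp hwp]
      have hd1 : |Φ (gC false ν (p * h)) - Φ I| ≤ L * (4 / w1) :=
        (hL _ _ hgb hIb).trans (mul_le_mul_of_nonneg_left (hEg (p * h)) hL0.le)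
      have hd2 : |cU Φ δ - cU Φ (Dw w1 h)| ≤ L * (4 / w1) :=
        (kcp_cU Φ hΦ L hL hL0.le δ (Dw w1 h) hδ0 hδ1 (kcp_Dw _ _).1 (kcp_Dw _ _).2).trans
          (mul_le_mul_of_nonneg_left (h3.2 h δ w1 hw1p hδ) hL0.le)
      rw [hE1]
      have ha1 := (abs_le.1 hd1).2
      have ha2 := (abs_le.1 hd2).1
      have h8 : L * (8 / (w1 : ℝ)) = L * (4 / w1) + L * (4 / w1) := by ring
      have h9 : Φ (gC false ν (p * h)) - cU Φ δ ≤ (Φ I - cU Φ (Dw w1 h)) + L * (8 / w1) := by
        rw [h8]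
        linarith
      have h10 : 0 ≤ L * (8 / (w1 : ℝ)) := by positivity
      have hwn := hw.nn p
      have hwl := hw.le p
      calc w p * (Φ (gC false ν (p * h)) - cU Φ δ)
          ≤ w p * ((Φ I - cU Φ (Dw w1 h)) + L * (8 / w1)) := mul_le_mul_of_nonneg_left h9 hwn
        _ = w p * (Φ I - cU Φ (Dw w1 h)) + w p * (L * (8 / w1)) := by ring
        _ ≤ w p * (Φ I - cU Φ (Dw w1 h)) + 1 * (L * (8 / w1)) := by
            gcongr
        _ = w p * (Φ I - cU Φ (Dw w1 h)) + L * (8 / w1) := by ring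
    refine (kcp_avg_mono 2 m _ _ hpt).trans ?_
    rw [kcp_avg_add, kcp_avg_sum]
    have h11 : ∑ u ∈ range Q, avgP 2 m (fun p => if p ≡ u [MOD Q] then
          w p * (Φ (∫ ω in E (u * h), sg (btY ω).1 * sg (btY (shY^[p * h] ω)).1 ∂ν) -
            cU Φ (ν.real (E (u * h)))) else 0) ≤ η / 2 := by
      refine (Finset.sum_le_sum fun u hu => hM u m (hMu u hu)).trans ?_
      rw [Finset.sum_const, card_range, nsmul_eq_mul]
      have : (Q : ℝ) * (η / (2 * Q)) = η / 2 := by field_simp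
      rw [this]
    have h12 : avgP 2 m (fun _ => L * (8 / (w1 : ℝ))) ≤ L * (8 / w1) :=
      kcp_avg_const 2 m _ (by positivity)
    linarith

end Pool.Agent.H99.X
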